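import Pool.Agent.Helper94.LK.Spec

/-! MP_e4073d_mp, part IMS: localisation. -/

open MeasureTheory Filter Topology Set
open scoped ENNReal InnerProductSpace SchwartzMap ComplexConjugate

namespace Pool.Agent.Helper94.LK

namespace H71

theorem N_nonneg (f : ℝ → ℝ) : 0 ≤ N f := integral_nonneg fun _ => sq_nonneg _

theorem N_abs (f : ℝ → ℝ) : N (fun s => |f s|) = N f := by
  unfold N
  simp only [sq_abs]

/-- the weighted kernel -/
theorem schur (hK1 : S_K1) (hK2 : S_K2) (hG : S_GEO) (hS : S_SCH) (L : ℝ) (hL : 0 < L) :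
    KerBdd (fun s s' => (s - s') ^ 2 * GC (crv 1 L) s s') (125/128) := by
  have hcont : Continuous (crv 1 L) := hG.conts 1 L one_pos le_rfl hL
  apply hS _ _ (by norm_num)
  · have h1 : Measurable (fun z : ℝ × ℝ => (z.1 - z.2) ^ 2) := by fun_prop
    have h2 : Measurable (fun z : ℝ × ℝ => ‖crv 1 L z.1 - crv 1 L z.2‖) := by
      have : Continuous (fun z : ℝ × ℝ => ‖crv 1 L z.1 - crv 1 L z.2‖) :=
        ((hcont.comp continuous_fst).sub (hcont.comp continuous_snd)).norm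
      exact this.measurable
    exact h1.mul (hK1.meas.comp h2)
  · intro s s'
    exact mul_nonneg (sq_nonneg _) (hK1.nonneg _)
  · intro s s'
    simp only [GC]
    rw [norm_sub_rev, ← neg_sub s' s, neg_sq]
  · intro s
    have h1 : ∀ s', (s - s') ^ 2 * GC (crv 1 L) s s' ≤ (s - s') ^ 2 * kap (4/5 * |s - s'|) := by
      intro s'
      by_cases h : s = s'
      · subst h; simp
      · have h2 : 0 < |s - s'| := abs_pos.2 (sub_ne_zero.2 h)
        have h3 := hG.low 1 L s s' one_pos le_rfl hL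
        have h4 : 4/5 * |s - s'| ≤ ‖crv 1 L s - crv 1 L s'‖ := by simpa using h3
        apply mul_le_mul_of_nonneg_left _ (sq_nonneg _)
        unfold GC
        exact hK1.anti.antitoneOn (by simp only [mem_Ioi]; positivity)
          (lt_of_lt_of_le (by positivity) h4) h4
    have h5 : (∫⁻ s', ENNReal.ofReal ((s - s') ^ 2 * GC (crv 1 L) s s')) ≤
        ∫⁻ s', ENNReal.ofReal ((s - s') ^ 2 * kap (4/5 * |s - s'|)) :=
      lintegral_mono fun s' => ENNReal.ofReal_le_ofReal (h1 s')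
    refine h5.trans ?_
    have h6 : (∫⁻ s', ENNReal.ofReal ((s - s') ^ 2 * kap (4/5 * |s - s'|))) =
        ∫⁻ u : ℝ, ENNReal.ofReal (u ^ 2 * kap (4/5 * |u|)) :=
      lintegral_sub_left_eq_self (fun u : ℝ => ENNReal.ofReal (u ^ 2 * kap (4/5 * |u|))) s
    rw [h6]
    have h7 : (fun u : ℝ => u ^ 2 * kap (4/5 * |u|)) =
        fun u : ℝ => 25/16 * ((fun v : ℝ => v ^ 2 * kap |v|) ((4/5) * u)) := by
      funext u
      simp only [abs_mul]
      rw [abs_of_pos (by norm_num : (0:ℝ) < 4/5)]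
      ring
    have h8 : Integrable (fun u : ℝ => u ^ 2 * kap (4/5 * |u|)) := by
      rw [h7]
      apply Integrable.const_mul
      exact hK2.int2.comp_mul_left' (by norm_num : (4/5:ℝ) ≠ 0)
    rw [← ofReal_integral_eq_lintegral_ofReal h8
      (Eventually.of_forall fun u => mul_nonneg (sq_nonneg _) (hK1.nonneg _))]
    apply ENNReal.ofReal_le_ofReal
    rw [h7, integral_const_mul, Measure.integral_comp_mul_left (fun v : ℝ => v ^ 2 * kap |v|) (4/5),
      hK2.val2]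
    rw [abs_of_pos (by norm_num), smul_eq_mul]
    norm_num

theorem int_sub3 {g g0 g1 g2 : ℝ × ℝ → ℝ} (h : Integrable g) (h0 : Integrable g0)
    (h1 : Integrable g1) (h2 : Integrable g2) :
    (∫ z, g z) - (∫ z, g0 z) - (∫ z, g1 z) - (∫ z, g2 z) =
      ∫ z, (g z - g0 z - g1 z - g2 z) := by
  have e2 : (∫ z, (g z - g0 z - g1 z - g2 z)) = (∫ z, (g z - g0 z - g1 z)) - ∫ z, g2 z :=
    integral_sub ((h.sub h0).sub h1) h2
  have e1 : (∫ z, (g z - g0 z - g1 z)) = (∫ z, (g z - g0 z)) - ∫ z, g1 z :=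
    integral_sub (h.sub h0) h1
  have e0 : (∫ z, (g z - g0 z)) = (∫ z, g z) - ∫ z, g0 z := integral_sub h h0
  rw [e2, e1, e0]

theorem memLp_mul {χ f : ℝ → ℝ} (hχ : Continuous χ) (hb : ∀ s, |χ s| ≤ 1)
    (hf : MemLp f 2 volume) : MemLp (fun s => χ s * f s) 2 volume := by
  apply hf.of_le (hχ.aestronglyMeasurable.mul hf.aestronglyMeasurable)
  filter_upwards with s
  show ‖χ s * f s‖ ≤ ‖f s‖
  rw [norm_mul, Real.norm_eq_abs, Real.norm_eq_abs]
  calc |χ s| * |f s| ≤ 1 * |f s| := by gcongr; exact hb s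
    _ = |f s| := one_mul _

end H71

theorem ims_thm (hK1 : S_K1) (hK2 : S_K2) (hG : S_GEO) (hKB : S_KB) (hS : S_SCH) : S_IMS := by
  refine ⟨150 * (125/128), ?_⟩
  intro L hL χ₀ χ₁ hχ₀ hχ₁ hp h1l h0l f hf
  have hL0 : 0 < L := by linarith
  set G := GC (crv 1 L) with hGdef
  set χ₂ : ℝ → ℝ := fun s => χ₁ (-s) with hχ₂def
  have hχ₂ : Continuous χ₂ := hχ₁.comp continuous_neg
  have h2l : ∀ s s', |χ₂ s - χ₂ s'| ≤ 10 / L * |s - s'| := by
    intro s s'
    have := h1l (-s) (-s')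
    rwa [neg_sub_neg, abs_sub_comm s' s] at this
  have hKer : KerBdd G (1 / (2 * (4/5))) := by
    apply hKB.kC (crv 1 L) (4/5) (by norm_num) (hG.conts 1 L one_pos le_rfl hL0)
    intro s s'
    have := hG.low 1 L s s' one_pos le_rfl hL0
    simpa using this
  have hb0 : ∀ s, |χ₀ s| ≤ 1 := by
    intro s
    rw [abs_le_one_iff_mul_self_le_one]
    have := hp s
    nlinarith [sq_nonneg (χ₁ s), sq_nonneg (χ₁ (-s))]
  have hb1 : ∀ s, |χ₁ s| ≤ 1 := by
    intro s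
    rw [abs_le_one_iff_mul_self_le_one]
    have := hp s
    nlinarith [sq_nonneg (χ₀ s), sq_nonneg (χ₁ (-s))]
  have hb2 : ∀ s, |χ₂ s| ≤ 1 := fun s => hb1 (-s)
  have hm0 := H71.memLp_mul hχ₀ hb0 hf
  have hm1 := H71.memLp_mul hχ₁ hb1 hf
  have hm2 := H71.memLp_mul hχ₂ hb2 hf
  have hI := hKer.int f f hf hf
  have hI0 := hKer.int _ _ hm0 hm0
  have hI1 := hKer.int _ _ hm1 hm1
  have hI2 := hKer.int _ _ hm2 hm2
  have hH := H71.schur hK1 hK2 hG hS L hL0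
  have hfa : MemLp (fun s => |f s|) 2 volume := hf.abs
  have hIH := hH.int _ _ hfa hfa
  have hbd := hH.bd _ _ hfa hfa
  rw [H71.N_abs, mul_assoc, Real.mul_self_sqrt (H71.N_nonneg f)] at hbd
  have hBH : Bil (fun s s' => (s - s') ^ 2 * GC (crv 1 L) s s') (fun s => |f s|) (fun s => |f s|)
      ≤ 125/128 * N f := (le_abs_self _).trans hbd
  have key : Bil G f f - Bil G (fun s => χ₀ s * f s) (fun s => χ₀ s * f s)
      - Bil G (fun s => χ₁ s * f s) (fun s => χ₁ s * f s)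
      - Bil G (fun s => χ₂ s * f s) (fun s => χ₂ s * f s) ≤
      150 / L ^ 2 * Bil (fun s s' => (s - s') ^ 2 * GC (crv 1 L) s s') (fun s => |f s|)
        (fun s => |f s|) := by
    unfold Bil
    rw [H71.int_sub3 hI hI0 hI1 hI2, ← integral_const_mul]
    apply integral_mono (((hI.sub hI0).sub hI1).sub hI2) (hIH.const_mul _)
    rintro ⟨s, s'⟩
    show G s s' * (f s * f s') - G s s' * (χ₀ s * f s * (χ₀ s' * f s'))
        - G s s' * (χ₁ s * f s * (χ₁ s' * f s')) - G s s' * (χ₂ s * f s * (χ₂ s' * f s')) ≤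
        150 / L ^ 2 * ((s - s') ^ 2 * GC (crv 1 L) s s' * (|f s| * |f s'|))
    have hgn : 0 ≤ G s s' := hK1.nonneg _
    have e1 : G s s' * (f s * f s') - G s s' * (χ₀ s * f s * (χ₀ s' * f s'))
        - G s s' * (χ₁ s * f s * (χ₁ s' * f s')) - G s s' * (χ₂ s * f s * (χ₂ s' * f s')) =
        G s s' * (f s * f s') * ((1/2) * ((χ₀ s - χ₀ s') ^ 2 + (χ₁ s - χ₁ s') ^ 2 +
          (χ₂ s - χ₂ s') ^ 2)) := by
      have p1 : χ₀ s ^ 2 + χ₁ s ^ 2 + χ₂ s ^ 2 = 1 := hp s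
      have p2 : χ₀ s' ^ 2 + χ₁ s' ^ 2 + χ₂ s' ^ 2 = 1 := hp s'
      have p3 : (1/2) * ((χ₀ s - χ₀ s') ^ 2 + (χ₁ s - χ₁ s') ^ 2 + (χ₂ s - χ₂ s') ^ 2) =
          1 - χ₀ s * χ₀ s' - χ₁ s * χ₁ s' - χ₂ s * χ₂ s' := by linear_combination (1/2) * p1 + (1/2) * p2
      rw [p3]; ring
    rw [e1]
    have sqb : ∀ x : ℝ, |x| ≤ 10 / L * |s - s'| → x ^ 2 ≤ 100 / L ^ 2 * (s - s') ^ 2 := by
      intro x hx
      rw [← sq_abs x]
      calc |x| ^ 2 ≤ (10 / L * |s - s'|) ^ 2 := by gcongr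
        _ = 100 / L ^ 2 * (s - s') ^ 2 := by rw [mul_pow, sq_abs, div_pow]; norm_num
    have b0 := sqb _ (h0l s s')
    have b1 := sqb _ (h1l s s')
    have b2 := sqb _ (h2l s s')
    have hE : (1/2) * ((χ₀ s - χ₀ s') ^ 2 + (χ₁ s - χ₁ s') ^ 2 + (χ₂ s - χ₂ s') ^ 2) ≤
        150 / L ^ 2 * (s - s') ^ 2 := by
      have : 150 / L ^ 2 * (s - s') ^ 2 = (1/2) * (3 * (100 / L ^ 2 * (s - s') ^ 2)) := by ring
      rw [this]; linarith
    have hE0 : 0 ≤ (1/2) * ((χ₀ s - χ₀ s') ^ 2 + (χ₁ s - χ₁ s') ^ 2 + (χ₂ s - χ₂ s') ^ 2) := by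
      positivity
    have hff : f s * f s' ≤ |f s| * |f s'| := by
      rw [← abs_mul]; exact le_abs_self _
    calc _ ≤ G s s' * (|f s| * |f s'|) * ((1/2) * ((χ₀ s - χ₀ s') ^ 2 + (χ₁ s - χ₁ s') ^ 2 +
          (χ₂ s - χ₂ s') ^ 2)) := by gcongr
      _ ≤ G s s' * (|f s| * |f s'|) * (150 / L ^ 2 * (s - s') ^ 2) := by gcongr
      _ = 150 / L ^ 2 * ((s - s') ^ 2 * GC (crv 1 L) s s' * (|f s| * |f s'|)) := by
          rw [← hGdef]; ring
  have h9 : 150 / L ^ 2 * Bil (fun s s' => (s - s') ^ 2 * GC (crv 1 L) s s') (fun s => |f s|)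
      (fun s => |f s|) ≤ 150 / L ^ 2 * (125/128 * N f) := by gcongr
  have h10 : 150 / L ^ 2 * (125/128 * N f) = 150 * (125/128) / L ^ 2 * N f := by ring
  linarith

end Pool.Agent.Helper94.LK
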